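import Pool.Agent.H891.OM.Kod
import Pool.Agent.H891.OM.Shearer
import Pool.Agent.H891.RB.Ratios

/-!
# Nonvanishing for log canonical pairs with maps to other pairs

MP_bc213e_ag, Q1. Let `(V, Δ)` be a log canonical pair of dimension `n`, `K` the function field of
`V`. A multivalued map of `V` is a rational map `φ : V' ⇢ Y` of a Galois covering `V' → V`, with
function field `L ⊇ K`, onto a variety `Y`, i.e. a subfield `ℂ(Y)` of `L`. Let `(Y j, Δ j)`
(`j < r`) be pairs, `φ j : V ⇢ Y j` multivalued maps, with fibres `F j` of dimension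
`f j = n - dim (Y j) ≥ 1`, and let `T j` be the tangent spaces of the `F j` at the general point of
`V`. We assume:

(A) There are rational weights `q j = c j / d > 0` with
`n - dim U ≤ ∑ q j (f j - dim (U ∩ T j))` for all distributions `U ⊆ T_V` on `V`, and
`n = ∑ q j f j`
(the condition of Bennett, Carbery, Christ and Tao for the Brascamp-Lieb inequalities, but only for
the subspaces `U` of the tangent space at the general point which are rational over `K`).

(B) The `φ j` are maps of orbifolds `(V', Δ') ⇢ (Y j, Δ j)` (`OrbMap`). Here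
`K_V' + Δ' = π^* (K_V + Δ)`, and the condition is that for all divisors `w` over `V'` the log
discrepancy `e (1 - δ v)` of `w` with respect to `(V', Δ')` (`w` lies over the divisor `v` over `V`
with the ramification index `e`, and `1 - δ v` is the log discrepancy of `v`) is at most `1` (i.e.
`Δ'` is effective) and at most the log discrepancy `i (1 - δ u)` of the valuation `i u` which `w`
induces on `ℂ(Y j)`, if this is not trivial. If `φ j (w)` is a divisor of `Y j`, this is the condition
of Campana: the multiplicity `1 / (1 - δ)` of `u` divides, in the sense of `≤`, `i` times the one of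
`w`.

It is enough to have this for the prime divisors of `V'` if `V` is normal and `K_V + Δ` is
`ℚ`-Cartier: the sections of `m (K_V + Δ)` do not change if one replaces the log discrepancies of
the exceptional divisors of `V` by `0`, `δ v = 1`, and for these divisors (B) is trivially satisfied if
the `(Y j, Δ j)` are log canonical.

Put `p j = c j / d'`, `d' = ∑ c j - d`; so `n = ∑ p j dim (Y j)` and `dim U ≤ ∑ p j dim (dφ j (U))` for
all `U`. Note that (B) does not depend on the weights. Then:

(0) **A class of systems with (A).** Let `V ⇢ X 1 × ... × X m` be a generically finite dominant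
(multivalued) map, let `S j` (`j < r`) be proper subsets of `{1, ..., m}`, and let `V ⇢ Y j` be maps
over which `V ⇢ ∏ X i` (`i ∈ S j`) factors, with `Y j` generically finite over this partial product
(for example its Stein factorization). If `∑ p j = 1` over the `S j` which contain `i`, for all `i`,
then (A) is satisfied (the inequality of Loomis-Whitney, Finner, Shearer). In the theorem the system is
given by coordinates `z i` of the factors. For example for the `Y S` with `|S| = s`:
`p = 1 / (m - 1 choose s - 1)`; for `m = 3`, `s = 2`: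
`K_V + Δ ≥ (φ 12^* (K + Δ 12) + φ 13^* (K + Δ 13) + φ 23^* (K + Δ 23)) / 2`, so
`κ(V) ≥ (κ(Y 12) + κ(Y 13) + κ(Y 23)) / 2`. Note that the `Y S` are ramified over the partial products:
with `K_{Y S} = ∑ K_{X i} + R S` this gives the ramification divisors `R S` the weight `1 / 2`,
the average of the inequalities `K_V ≥ K_{Y 12} + K_{X 3}` etc. only the weight `1 / 3`.

(1) **Riemann-Hurwitz inequality** `K_V + Δ ≥ ∑ p j φ j^* (K_{Y j} + Δ j)`, where the pull-back by a
multivalued map is the average over its conjugates and branches (the norm from `L` to `K`). The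
inequality is stated for sections: sections `η j` of `T D c j (K_{Y j} + Δ j)` give the section of
`T D d' g ^ 2 (K_V + Δ)` with the value `ρ ^ T ∏ N (η j) ^ g`, `g = [L : K]`.

(2) `κ(V, K_V + Δ) ≥ a` if `κ(Y j, K + Δ j) ≥ 0` for all `j`, where `a` is the dimension of the
image of `V'` under all the conjugates of the compositions of the `φ j` with the Iitaka fibrations of
the `(Y j, Δ j)`.

(3) `κ(V, K_V + Δ) ≥ ∑ p j κ(Y j, K + Δ j)` if `κ(Y j, K + Δ j) ≥ 0` for all `j`. In
particular:

**Nonvanishing.** If `κ(Y j, K + Δ j) ≥ 0` for all `j`, then `κ(V, K_V + Δ) ≥ 0`.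

So Q1 for a log canonical pair `(V, Δ)` with such maps follows from the non-vanishing for the pairs
`(Y j, Δ j)` of smaller dimension (which is known if `dim (Y j) ≤ 3` and `K + Δ j` is
pseudo-effective and log canonical).

(4) **Open varieties.** Let `V° ⊆ V` and `Y°j ⊆ Y j` be smooth open subvarieties, and let the
`φ j` be multivalued morphisms `V° → Y°j`, i.e. morphisms of a finite étale covering of `V°`. Then (B) is
satisfied for the boundaries (`δ v = 1` for the divisors whose centre is in the boundary, `0` for the
others), so `κ(V°) ≥ ∑ p j κ(Y°j)` for the logarithmic Kodaira dimensions, if all `κ(Y°j) ≥ 0`.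
In the theorem `Z` and `ZY j` are the sets of the divisors with centre in the boundary.

Further examples. (a) If all the `(Y j, Δ j)` are of log general type, then `(V, Δ)` is of log
general type, because `κ(V) ≥ ∑ p j dim (Y j) = n`; here (A) and (B) are sufficient, the fibres can be
arbitrary. (b) One multivalued map to `Y`, `dim Y = y`: `p = n / y`, the condition is
`dim U / n ≤ dim (dφ (U)) / y` for all distributions `U`, a stability condition for the configuration
of the conjugates of `T`; for a curve `Y` it says that `n` of the branches of `φ` are functionally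
independent, and the result is `K_V + Δ ≥ n φ^* (K_Y + Δ_Y)`. (c) Three maps of a threefold `V` to
surfaces whose fibres have independent directions (not nec. as in (0)): again `p = 1 / 2`.

Compared with `RiemannHurwitz` (MP_fa3f7f_ag): there the ramification bound `RamBound` is assumed, i.e.
`∑ c j a j ≤ d' (1 - e (1 - δ v))`, `a j = 1 - i (1 - δ u)` or `0`. For log canonical
singularities this is usually false: for a log canonical centre `w` (`δ v = 1`) which is mapped to
log canonical centres of all the `Y j` it would say `∑ c j ≤ d'`. Neither of the conditions implies the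
other one. The new point is an estimate of the determinant with logarithmic forms at the places where
many of the maps are not trivial, so that the two extreme estimates together cover all the maps of
orbifolds, for all weights.

Conventions. The fibres of `φ j` are given by the algebraic closure `B j` of `ℂ(Y j)` in the algebraic
closure of `K` (`IsFibres`; `IsFamily`: algebraically closed of transcendence degree `n - f j`,
`f j ≥ 1`). `Tan (B j)`: the derivations of the algebraic closure of `K` which vanish on `B j`.
`IsDistribution U`: `U` is generated by derivations which map `K` into itself. `BLDist`: the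
condition (A). `PairSec k M n δ {1} m 0 ω`: the rational `m`-canonical form `ω` is a section of
`m (K + Δ)`, `Δ` the divisor with the multiplicities `δ v` at the prime divisors over the variety with
function field `M`. `PairKod k M n δ h`: `κ(K + Δ) ≥ h`. `IsSecRatio`: ratio of two sections of the same
positive degree.

The proof of (1). The cotangent space `Ω_V ⊗ E` of the generic point is isomorphic to the sum of the
pull-backs of the `Ω_{Y j} ⊗ E_j` by all values of the `φ j`, for suitable constant matrices, all
conjugates with the same multiplicity; `dim E = N = d' g D`. The determinant is a rational function.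
At a divisor `w` with the log discrepancy `μ = e (1 - δ v)` let `M` be the number of the summands whose
map is not trivial at `w`. If `M ≤ N` the determinant is estimated by holomorphic forms, and it
is sufficient that `∑ (1 - i (1 - δ u)) ≤ N (1 - μ)`, which follows from (B) and `μ ≤ 1`. If
`M ≥ N` it is estimated by logarithmic forms, and it is sufficient that `∑ i (1 - δ u) ≥ N μ`, which
follows from (B) and `μ ≥ 0`. (2) and (3) as in `RiemannHurwitz` and `ReverseBrascampLieb`
(MP_c2a5fc_ag).
-/

set_option autoImplicit false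

open FF Pool.Agent.W619.PQ Pool.Agent.W619.TW Pool.Agent.Y174 Pool.Agent.H891.TY
  Pool.Agent.H891.BL Pool.Agent.H891.RH Pool.Agent.H891.RB Pool.Agent.H891.OM

namespace Pool.Agent.Results.MP_bc213e_ag.OrbifoldMaps

open scoped Classical in
/-- **Orbifold maps of log canonical pairs.** Let `V` be a projective variety of dimension `n` with
function field `K`, `L` a finite Galois extension of `K`, and let `Y j ⊆ L` be function fields of
varieties of dimension `y j`; let `B j` be the algebraic closure of `Y j`, i.e. the family of the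
fibres of the multivalued map `V ⇢ Y j`, of dimension `f j = n - y j`. Let the weights `c j / d`,
`c j ≥ 1`, `∑ c j f j = d n`, satisfy the Brascamp-Lieb condition for all distributions on `V`
(`BLDist`), and let `d' = ∑ c j - d ≥ 1`. Then (1) - (4) are true; part (0) gives a class of systems for
which the condition is satisfied.

(0) If `z` is a transcendence basis of the algebraic closure of `K`, `z i ∈ B j` for `i ∈ S j`,
`f j = n - |S j|`, and the sum of the `c j` with `i ∉ S j` is `d` for all `i`, then `∑ c j f j = d n`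
and the Brascamp-Lieb condition is satisfied.

(1) There is a `D ≥ 1` such that for all frames `E` of `V` and `F j` of `Y j` (dual to coordinates)
there is `ρ ≠ 0` such that for all divisors `Δ`, `Δ j` for which the maps are maps of orbifolds
(`OrbMap`), all `T` and all sections `η j` of `T D c j (K_{Y j} + Δ j)` there is a section of
`T D d' g ^ 2 (K_V + Δ)`, `g = [L : K]`, with the value `ρ ^ T ∏ N (η j (F j)) ^ g` on `E`.

For all divisors `Δ`, `Δ j` with `OrbMap`:

(2) if `κ(Y j, K + Δ j) ≥ 0` for all `j` and `a` of the conjugates of the ratios of sections on the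
`(Y j, Δ j)` are algebraically independent, then `κ(K_V + Δ) ≥ a`;

(3) if `κ(Y j, K + Δ j) ≥ κ j ≥ 0` and `d' h < ∑ c j κ j + d'` then `κ(K_V + Δ) ≥ h`, and
`κ(K_V + Δ) ≥ 0` if `κ(Y j, K + Δ j) ≥ 0` for all `j`.

(4) If the covering is unramified over all divisors `v` which are not in `Z`, and maps the divisors
over them to divisors which are not in `ZY j` (for all `j`), then `OrbMap` holds for the reduced
boundaries given by `Z` and `ZY j`. -/
theorem result {K : Type} [Field K] [Algebra ℂ K] [Algebra.EssFiniteType ℂ K] {n : ℕ}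
    (hn : Algebra.trdeg ℂ K = n) {r : ℕ} (B : Fin r → IntermediateField ℂ (AlgebraicClosure K))
    (f c : Fin r → ℕ) (d : ℕ) :
    (∀ (z : Fin n → AlgebraicClosure K) (S : Fin r → Finset (Fin n)),
      IsTranscendenceBasis ℂ z → (∀ j, ∀ i ∈ S j, z i ∈ B j) → (∀ j, f j + (S j).card = n) →
      (∀ i, ∑ j ∈ Finset.univ.filter (fun j => i ∉ S j), c j = d) →
      ∑ j, c j * f j = d * n ∧ BLDist n B f c d) ∧
    ∀ (L : IntermediateField K (AlgebraicClosure K)) [FiniteDimensional K L] [IsGalois K L]
    (Y : Fin r → IntermediateField ℂ L) [∀ j, Algebra.EssFiniteType ℂ (Y j)] (y : Fin r → ℕ)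
    (_ : ∀ j, IsFibres L (Y j) (B j) n (y j) (f j)) (_ : ∀ j, 1 ≤ c j) (d' : ℕ)
    (_ : 1 ≤ d') (_ : d + d' = ∑ j, c j) (_ : ∑ j, c j * f j = d * n) (_ : BLDist n B f c d),
    (∃ D : ℕ, 0 < D ∧ ∀ (y₀ : Fin n → K) (E : Fin n → Derivation ℂ K K)
      (t : ∀ j, Fin (y j) → Y j) (F : ∀ j, Fin (y j) → Derivation ℂ (Y j) (Y j)),
      IsTranscendenceBasis ℂ y₀ → (∀ i j, E i (y₀ j) = if i = j then 1 else 0) →
      (∀ j, IsTranscendenceBasis ℂ (t j)) →
      (∀ j l l', F j l (t j l') = if l = l' then 1 else 0) → ∃ ρ : K, ρ ≠ 0 ∧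
      ∀ (δ : Place ℂ K → ℝ) (δY : ∀ j, Place ℂ (Y j) → ℝ), OrbMap n L δ Y δY →
        ∀ (T : ℕ) (η : ∀ j, (Fin (y j) → Derivation ℂ (Y j) (Y j)) → Y j),
        (∀ j, PairSec ℂ (Y j) (y j) (δY j) {1} (T * (D * c j)) 0 (η j)) →
        ∃ ω, PairSec ℂ K n δ {1} (T * (D * d' * Nat.card (L ≃ₐ[K] L) ^ 2)) 0 ω ∧
          ω E = ρ ^ T * ∏ j, Algebra.norm K (η j (F j) : L) ^ Nat.card (L ≃ₐ[K] L)) ∧
    (∀ (δ : Place ℂ K → ℝ) (δY : ∀ j, Place ℂ (Y j) → ℝ), OrbMap n L δ Y δY →
      ((∀ j, PairKod ℂ (Y j) (y j) (δY j) 0) → ∀ (a : ℕ) (z : Fin a → L),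
        AlgebraicIndependent ℂ z →
        (∀ i, ∃ (j : Fin r) (x : Y j) (σ : L ≃ₐ[K] L),
          IsSecRatio (k := ℂ) (y j) (δY j) x ∧ z i = σ x) → PairKod ℂ K n δ a) ∧
      (∀ (κ : Fin r → ℕ) (h : ℕ), (∀ j, PairKod ℂ (Y j) (y j) (δY j) (κ j)) →
        d' * h < ∑ j, c j * κ j + d' → PairKod ℂ K n δ h) ∧
      ((∀ j, PairKod ℂ (Y j) (y j) (δY j) 0) → PairKod ℂ K n δ 0)) ∧
    ∀ (Z : Set (Place ℂ K)) (ZY : ∀ j, Set (Place ℂ (Y j))),
      (∀ (w : Place ℂ L) (v : Place ℂ K) (e : ℕ), IsDivisorial w n → LiesOn w v e → v ∉ Z →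
        e = 1 ∧ ∀ (j : Fin r) (u : Place ℂ (Y j)) (i : ℕ), LiesOn w u i → u ∉ ZY j) →
      OrbMap n L (fun v => if v ∈ Z then 1 else 0) Y fun j u => if u ∈ ZY j then 1 else 0 := by
  refine ⟨fun z S hz hS hf hd => shearer hz hS (fun j => hf j) fun i => ?_,
    fun L _ _ Y _ y hY hc d' hd' hdd hs hBL => ?_⟩
  · rw [← hd i]
  have hkod : ∀ (δ : Place ℂ K → ℝ) (δY : ∀ j, Place ℂ (Y j) → ℝ), OrbMap n L δ Y δY →
      ∀ (κ : Fin r → ℕ) (h : ℕ), (∀ j, PairKod ℂ (Y j) (y j) (δY j) (κ j)) →
        d' * h < ∑ j, c j * κ j + d' → PairKod ℂ K n δ h := by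
    intro δ δY horb κ h hκ hle
    obtain ⟨x₁, hx₁⟩ := Pool.Agent.W636.PG.exists_basis ℂ K n hn
    have hxΩ₁ : IsTranscendenceBasis ℂ (algebraMap K (AlgebraicClosure K) ∘ x₁) :=
      hx₁.algebraMap_comp
    obtain ⟨G₁, hG₁⟩ := Pool.Agent.W636.PG.exists_duals ℂ (AlgebraicClosure K) n _ hxΩ₁
    obtain ⟨a, z, hz, hzR, ha⟩ := exists_ratios hxΩ₁ hG₁ hn hY hd' hdd hBL hs hκ
    have hha : h ≤ a := by
      have h1 : d' * h < d' * (a + 1) := by
        rw [mul_add, mul_one]
        omega
      exact Nat.lt_succ_iff.1 (Nat.lt_of_mul_lt_mul_left h1)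
    refine Pool.Agent.H891.OM.rh_kod inferInstance hn hY hd' hdd hBL hs hc (orb_loc horb d')
      (fun j => ?_) (z := z ∘ Fin.castLE hha) (hz.comp _ (Fin.castLE_injective hha)) fun i => hzR _
    obtain ⟨m, hm, ω, hω, X, hX, hind⟩ := hκ j
    refine ⟨m, hm, fun _ => ω 0, fun _ => hω 0, X, fun _ => hX 0, ?_⟩
    exact algebraicIndependent_empty_type
  refine ⟨?_, fun δ δY horb => ⟨fun h0 a z hz hzR => ?_, hkod δ δY horb, fun h0 => ?_⟩,
    fun Z ZY hZ w v e hw hov => ?_⟩
  · obtain ⟨D, hD, h1⟩ := Pool.Agent.H891.OM.rh inferInstance hn hY hd' hdd hBL hs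
    refine ⟨D, hD, fun y₀ E t F h2 h3 h4 h5 => ?_⟩
    obtain ⟨ρ, hρ, h6⟩ := h1 y₀ E t F h2 h3 h4 h5
    exact ⟨ρ, hρ, fun δ δY horb => h6 δ δY (orb_loc horb d')⟩
  · exact Pool.Agent.H891.OM.rh_kod inferInstance hn hY hd' hdd hBL hs hc (orb_loc horb d') h0 hz
      hzR
  · refine hkod δ δY horb (fun _ => 0) 0 h0 ?_
    rw [mul_zero]
    omega
  · by_cases hv : v ∈ Z
    · simp only [if_pos hv, sub_self, mul_zero]
      refine ⟨le_refl _, zero_le_one, fun j u i hu => ?_⟩
      split_ifs
      · simp
      · simp
    · obtain ⟨he, hu⟩ := hZ w v e hw hov hv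
      simp only [if_neg hv, he, Nat.cast_one, sub_zero, mul_one]
      refine ⟨zero_le_one, le_refl _, fun j u i hui => ?_⟩
      rw [if_neg (hu j u i hui), sub_zero, mul_one]
      exact_mod_cast hui.1

end Pool.Agent.Results.MP_bc213e_ag.OrbifoldMaps
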