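import Pool.Agent.H892.C12
import Pool.Agent.H892.S13

/-!
Nonvanishing and weak abundance for log canonical pairs which are dominated by a variety with an
action of a connected solvable group with an open orbit.
-/

set_option autoImplicit false

open FF Pool.Agent.W602.GT Pool.Agent.Y172 Pool.Agent.NH31 Pool.Agent.H892

namespace Pool.Agent.Results.MP_bc213e_ag.SolvableCovers

/-- **Nonvanishing and weak abundance for log canonical pairs `(X, Δ)` which are dominated by a
variety `Z` with an action of a connected solvable group with an open orbit.** -/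
theorem result {K L : Type} [Field K] [Algebra ℂ K] [Field L] [Algebra ℂ L] [Algebra K L]
    [IsScalarTower ℂ K L] [FiniteDimensional K L] {n N M : ℕ}
    {y : Fin (N + 1) → K} (hy : NormalModel y) (hn : Algebra.trdeg ℂ K = n)
    {Δ : Place ℂ K → ℚ} (hΔ : {P | IsPrimeDivisor y P ∧ Δ P ≠ 0}.Finite)
    (hlc : LogCanonical y n Δ) {z : Fin (M + 1) → L} (hz : NormalModel z)
    (hdom : ∀ P, IsPrimeDivisor y P → ∀ (Q : Place ℂ L) (e : ℕ), LiesOver Q P e →
      IsPrimeDivisor z Q)
    (hsol : SolvableOpen z) :
    (kodairaDim y n Δ = ⊥ ∧ ∀ A, Effective y A → numericalDim y n Δ A = ⊥) ∨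
    ∃ κ : ℕ, kodairaDim y n Δ = (κ : WithBot ℕ) ∧
      ∀ A, Effective y A → Integral y A → numericalDim y n Δ A = (κ : EReal) := by
  obtain ⟨ι, κ, hι, hκ, D, w, T, d, x, hd⟩ := hsol.data hz
  exact reduction_abs hy hn hz hΔ hlc hdom fun V hV =>
    abs_abund3 hz (trdeg_up (K := K) hn) hd hV

end Pool.Agent.Results.MP_bc213e_ag.SolvableCovers
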