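import Pool.Agent.H897.RJ

/-!
MP_bc213e_ag, Q1: nonvanishing for pairs `(X, Δ)` whose orbifold tangent sheaf is stable with
respect to a movable class of degree `0` on `K_X + Δ`, if there is one nonzero tensor differential.

**The pair.** `NormalModel y` (`Pool/Agent/Y172/Defs.lean`): `y` is the generic point, in
homogeneous coordinates, of a normal projective variety `X` with function field `K`. `Δ` is an
effective `ℚ`-divisor, with the coefficient `Δ P` at the prime divisor `P` (`IsPrimeDivisor y P`).
`IsSection y n d D ω`: `ω` is a section of `d K_X + D`. `kodairaDim y n Δ` is the Kodaira dimension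
of `K_X + Δ`. It is not necessary that the pair is log canonical or that `K_X + Δ` is nef.

**The movable class** (`Pool/Agent/H897/RG.lean`). `MovableClass y α`: `α` is a linear function on
the divisors which is nonnegative on the prime divisors (`α P` is the degree of `P`) and `0` on
principal divisors. `HasDeg y α e s`: the divisor `∑ e P • P` has the degree `s`.
`LogDegree y n Δ α c`: the degree of `K_X + Δ` is `c`, where `K_X` is the divisor of a rational
`n`-form.

**Stability** (`RF.lean`, `RG.lean`). The orbifold tangent sheaf `T (X, Δ)` of Campana has at the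
generic point of a prime divisor `P` with equation `x` and coefficient `δ` the frame `E i`,
`i ≠ i0`, `x ^ δ • E i0`, for a frame `E` of the tangent bundle such that the `E i`, `i ≠ i0`, are
tangent to `P` if `δ ≠ 0` (`Adapted`). `WedgeOrd n δ P D e`: `e` is the order along `P` of
`D 0 ∧ ⋯ ∧ D (r - 1)` as a rational section of the exterior power of `T (X, Δ)`: the smallest order
of the coefficients in this frame. So `∑ e P • α P` is the degree of the saturated subsheaf of
`T (X, Δ)` which is generated by the `D k`. `StableTangent y n Δ α c`: for `0 < r < n` and linearly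
independent rational vector fields `D 0, ..., D (r - 1)` this degree is smaller than `- r c / n`,
that is `T (X, Δ)` is `α`-stable.

**The tensors** (`TS.lean`, `RH.lean`). `Twisted a T`: `T` is a rational section of
`(Ω¹) ^ ⊗ m ⊗ O (a K_X)`, given as a tensor `T E` which depends on the choice of a basis `E` of
the rational vector fields and is multiplied with `det A ^ a` if `E` is changed by the matrix `A`.
`OrbAtL δ ℓ P a T`: along the prime divisor `P` with the coefficient `δ = Δ P`, it is a section of
the `m`-th tensor power of the orbifold cotangent sheaf `Ω¹ (X, Δ)` with values in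
`a (K_X + Δ) + L`, `ℓ = L P`: on vector fields which are regular along `P`, of which at most those
with indices in `S` are not tangent to `P`, its order is at least `- (δ (|S| + a) + ℓ)`. For
`Δ = 0`, `a = 0` and `L = 0` these are the holomorphic tensors, for instance the holomorphic
`m`-forms. The integer `a` may be negative; the condition is `p = m + n a ≥ 1`.

**Theorem.** Let `n ≥ 2`, let `α` be a movable class such that `T (X, Δ)` is `α`-stable, and let
`c = (K_X + Δ) . α`.
(1) If `c ≤ 0` then `κ (K_X + Δ) ≤ 0`.
(2) Let `L` be a `ℚ`-divisor and let `T` be a nonzero section of the `m`-th tensor power of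
`Ω¹ (X, Δ)` with values in `a (K_X + Δ) + L`, `p = m + n a ≥ 1`, of slope at most `0`, that is
`n L . α ≤ - p c`. Then `k (p (K_X + Δ) + n L)` has a nonzero section for some `k ≥ 1`.
(3) If moreover `c ≤ 0` and `L = 0` then `κ (K_X + Δ) = 0`.
So nonvanishing holds for every log canonical pair with `K_X + Δ` nef, such that `T (X, Δ)` is
stable for a movable class `α` with `(K_X + Δ) . α = 0`, if it has one nonzero orbifold tensor.

**Proof.** If all semi-invariants of `SL n` vanish at `T` then there is a canonical optimal weighted
flag of the space of the rational vector fields (Kempf). By the first order conditions the leading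
part of `T` times suitable powers of the volume forms of the graded pieces is semistable
(Ramanan-Ramanathan), so it has a nonvanishing semi-invariant. The order of this rational function
along each prime divisor is estimated by the orders of the members of the flag, and the product
formula for `α` contradicts the stability. For (1), (3): if `ω`, `η` are sections of
`d (K_X + Δ)` then `ω dη - η dω` is a section of `Ω¹ (X, Δ)` with values in `2 d (K_X + Δ)`, and a
linear form has no invariants for `n ≥ 2`, so it vanishes.
-/

set_option autoImplicit false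

open FF Pool.Agent.W602.GT Pool.Agent.Y172 Pool.Agent.NH31 Pool.Agent.H897

namespace Pool.Agent.Results.MP_bc213e_ag.StableTangentSheaf

/-- **Nonvanishing for pairs with stable tangent sheaf and a tensor differential.** -/
theorem result {K : Type} [Field K] [Algebra ℂ K] {N n : ℕ} {y : Fin (N + 1) → K}
    (hy : NormalModel y) (hn : Algebra.trdeg ℂ K = n) (hn2 : 2 ≤ n) {Δ : Place ℂ K → ℚ}
    (hΔ : Effective y Δ) {α : Place ℂ K → ℝ} (hα : MovableClass y α) {c : ℝ}
    (hc : LogDegree y n Δ α c) (hst : StableTangent y n Δ α c) :
    (c ≤ 0 → kodairaDim y n Δ ≤ 0) ∧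
    ∀ (m p : ℕ) (a : ℤ) (L : Place ℂ K → ℚ) (lam : ℝ)
      (T : (Fin n → Derivation ℂ K K) →
        MultilinearMap K (fun _ : Fin m => Derivation ℂ K K) K),
      1 ≤ m → 1 ≤ p → (p : ℤ) = m + n * a → HasDeg y α (fun P => L P) lam →
      n * lam ≤ -(p * c) → Twisted a T → (∃ E, IsFrame E ∧ T E ≠ 0) →
      (∀ P, IsPrimeDivisor y P → OrbAtL (Δ P) (L P) P a T) →
        (∃ (k : ℕ) (ω : (Fin n → Derivation ℂ K K) → K), 1 ≤ k ∧ ω ≠ 0 ∧
          IsSection y n (k * p) ((k * p) • Δ + (k * n) • L) ω) ∧
        (c ≤ 0 → (∀ P, IsPrimeDivisor y P → L P = 0) → kodairaDim y n Δ = 0) := by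
  refine ⟨fun hc0 => (stable_kod hy hn hn2 hΔ hα hc hc0 hst).1,
    fun m p a L lam T hm hp1 hp hL hdeg hT hT0 hTO => ⟨?_, fun hc0 hL0 => ?_⟩⟩
  · obtain ⟨E, hE, hTE⟩ := hT0
    exact stable_sec hy hn (by omega) hΔ.2 hα hc hst hm hp hL hdeg hT hTO hE hTE
  · refine (stable_kod hy hn hn2 hΔ hα hc hc0 hst).2 m a hm (by omega) T hT hT0 fun P hP => ?_
    intro E D S h1 h2 h3
    have h4 := hTO P hP E D S h1 h2 h3
    rw [hL0 P hP, add_zero] at h4
    exact h4

end Pool.Agent.Results.MP_bc213e_ag.StableTangentSheaf
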