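import Pool.Agent.H897.VF

/-!
MP_bc213e_ag, Q1: nonvanishing for pairs `(X, Δ)` whose orbifold tangent sheaf is filtered by
distributions, such that each graded piece is stable for some movable class and has a nonzero
tensor, or has an anti-effective determinant.

**The pair.** `NormalModel y` (`Pool/Agent/Y172/Defs.lean`): `y` is the generic point, in
homogeneous coordinates, of a normal projective variety `X` with function field `K`,
`n = dim X`. `Boundary y Δ`: `Δ` is a `ℚ`-divisor with coefficients `Δ P` between `0` and `1` at
the prime divisors `P` (`IsPrimeDivisor y P`), for instance the boundary of a log canonical pair.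
`IsSection y n d D ω`: `ω` is a section of `d K_X + D`.

**Distributions** (`RF.lean`, `RG.lean`, `VE.lean`). A distribution on `X` is a `K`-subspace `F` of
the space of the rational vector fields `Derivation ℂ K K`; it is the generic fibre of a saturated
subsheaf of the orbifold tangent sheaf `T (X, Δ)` of Campana. This sheaf has at the generic point of
a prime divisor `P` with equation `x` and coefficient `δ` the frame `E i`, `i ≠ i0`, `x ^ δ • E i0`,
for a frame `E` of the tangent bundle such that the `E i`, `i ≠ i0`, are tangent to `P` if `δ ≠ 0`
(`Adapted`). `WedgeOrd n δ P D e`: `e` is the order along `P` of `D 0 ∧ ⋯ ∧ D (r - 1)` as a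
rational section of the exterior power of `T (X, Δ)`.

`MovableClass y α`: `α` is a linear function on the divisors which is nonnegative on the prime
divisors and `0` on principal divisors. `HasDeg y α e s`: the divisor `∑ e P • P` has the degree
`s`. `SubDeg y n Δ α F d`: the degree of `F` is `d`. `StablePiece y n Δ α W V`: the sheaf `V / W`
is `α`-stable, that is the slope of `F / W` is smaller than the slope of `V / W` for all
distributions `F` strictly between `W` and `V`.

**The pieces** (`VF.lean`). Let `W ⊂ V` be distributions and `r` the rank of `V / W`, `m ≥ 1`, and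
`L` a `ℚ`-divisor.
* `PieceStable y n Δ m L W V`: for some movable class `α` the sheaf `V / W` is `α`-stable, and there
is a nonzero section `T` of `((V / W) ^ *) ^ ⊗ m ⊗ L` of slope at most `0`, that is
`r L . α ≤ m deg (V / W)`. Here `T` is an `m`-linear form on `V` which vanishes if one of the
arguments is in `W`, and `SubTensorAt n δ ℓ P T` is the regularity along `P`: the order of `T D` is
at least the sum of the orders of the vector fields `D s`, minus `ℓ = L P`. For `L = 0` these are
the tensors `T` on `V / W` which are regular in codimension one, and the condition on the slope is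
that the degree of `V / W` is nonnegative.
* `PieceEff y n Δ m L W V`: the divisor class `r L - m det (V / W)` is `ℚ`-effective. For
instance, if `V / W` is a line bundle whose dual has a section, or if `V / W` is generically the
pull-back of the tangent bundle of the base `Y` of a fibration with `κ (Y) ≥ 0`.

**Theorem.** Let `0 = V 0 ⊂ V 1 ⊂ ⋯ ⊂ V k = T (X, Δ)` be distributions, `m i ≥ 1`, `L i`
`ℚ`-divisors, such that each `V (i + 1) / V i` has one of these two properties with `m i`, `L i`;
the movable classes for different `i` may be different. Let `r i` be the rank of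
`V (i + 1) / V i`. Then `K_X + Δ + ∑ (r i / m i) L i` is `ℚ`-effective: for some `M ≥ 1` there is
a nonzero section of `M (K_X + Δ + ∑ (r i / m i) L i)`. In particular (`L i = 0`) nonvanishing holds
for `(X, Δ)`: `M (K_X + Δ)` has a nonzero section.

**Proof.** For a piece with a tensor consider Kempf's optimal weighted flag of the generic fibre of
`V / W` for the tensor `T`. By the first order conditions the leading part of `T` times suitable
powers of the volume forms of the graded pieces of the flag is semistable (Ramanan-Ramanathan), so
it has a nonvanishing semi-invariant. The order of this rational function along each prime divisor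
is estimated by the orders of the members of the flag, by means of an orthogonalisation of a basis
of `V` adapted to `W` and to the flag, and the product formula for `α` contradicts the stability if
the flag is not trivial. So `T` is semistable, and its invariants give the effective divisor in the
class of a multiple of `r L - m det (V / W)`. The sum of the classes `- det (V (i + 1) / V i)` is
`K_X + Δ`.
-/

set_option autoImplicit false

open FF Pool.Agent.W602.GT Pool.Agent.Y172 Pool.Agent.NH31 Pool.Agent.H897

namespace Pool.Agent.Results.MP_bc213e_ag.StableTowers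

/-- **Nonvanishing for towers of stable distributions with tensors.** -/
theorem result {K : Type} [Field K] [Algebra ℂ K] {N n : ℕ} {y : Fin (N + 1) → K}
    (hy : NormalModel y) (hn : Algebra.trdeg ℂ K = n) {Δ : Place ℂ K → ℚ} (hΔ : Boundary y Δ)
    {k : ℕ} {V : ℕ → Submodule K (Derivation ℂ K K)} (hV0 : V 0 = ⊥) (hVk : V k = ⊤)
    (hV : ∀ i, i < k → V i < V (i + 1)) {m : ℕ → ℕ} (hm : ∀ i, i < k → 1 ≤ m i)
    {L : ℕ → Place ℂ K → ℚ}
    (hVL : ∀ i, i < k → PieceStable y n Δ (m i) (L i) (V i) (V (i + 1)) ∨
      PieceEff y n Δ (m i) (L i) (V i) (V (i + 1))) :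
    (∃ (M : ℕ) (ω : (Fin n → Derivation ℂ K K) → K), 1 ≤ M ∧ ω ≠ 0 ∧
      IsSection y n M (M • (fun P => Δ P + ∑ i ∈ Finset.range k,
        ((Module.finrank K (V (i + 1)) : ℚ) - Module.finrank K (V i)) / m i * L i P)) ω) ∧
    ((∀ i, i < k → L i = 0) → ∃ (M : ℕ) (ω : (Fin n → Derivation ℂ K K) → K), 1 ≤ M ∧ ω ≠ 0 ∧
      IsSection y n M (M • Δ) ω) := by
  have h1 : ∃ (M : ℕ) (ω : (Fin n → Derivation ℂ K K) → K), 1 ≤ M ∧ ω ≠ 0 ∧
      IsSection y n M (M • (fun P => Δ P + ∑ i ∈ Finset.range k,
        ((Module.finrank K (V (i + 1)) : ℚ) - Module.finrank K (V i)) / m i * L i P)) ω :=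
    tower_sec hy hn hΔ hV0 hVk m hm L fun i hi => by
      rcases hVL i hi with h | h
      · exact h.eff hy hn hΔ (hm i hi) (hV i hi)
      · exact h
  refine ⟨h1, fun hL => ?_⟩
  obtain ⟨M, ω, h2, h3, h4⟩ := h1
  refine ⟨M, ω, h2, h3, ?_⟩
  have h5 : (fun P => Δ P + ∑ i ∈ Finset.range k,
      ((Module.finrank K (V (i + 1)) : ℚ) - Module.finrank K (V i)) / m i * L i P) = Δ := by
    funext P
    rw [Finset.sum_eq_zero, add_zero]
    intro i hi
    rw [hL i (Finset.mem_range.1 hi), Pi.zero_apply, mul_zero]
  rw [h5] at h4
  exact h4

end Pool.Agent.Results.MP_bc213e_ag.StableTowers
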